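import Pool.Agent.H411R3.Gab.Spec

/-! H75-GABOR, TaskPair. -/

set_option autoImplicit false

namespace Pool.Agent.H411R3.Gab

open Pool.Agent.H75R4.Gab MeasureTheory Complex Filter

def Bx (l u : Fin 5 → ℝ) : Set V := {x : V | ∀ i, l i ≤ x i ∧ x i < u i}

theorem Bx_meas (l u : Fin 5 → ℝ) : MeasurableSet (Bx l u) := by
  have : Bx l u = ⋂ i, {x : V | l i ≤ x i ∧ x i < u i} := by
    ext x
    simp [Bx]
  rw [this]
  refine MeasurableSet.iInter fun i => ?_
  have h : Measurable fun x : V => x i := by fun_prop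
  exact (measurableSet_le measurable_const h).inter (measurableSet_lt h measurable_const)

theorem sidon : ∀ p q j k : Fin 7, (∀ i, YZ p i - YZ q i = YZ j i - YZ k i) →
    (p = q ∧ j = k) ∨ (p = j ∧ q = k) := by
  decide +kernel

theorem even_YZ : ∀ (p : Fin 7) (i : Fin 5), YZ p i % 2 = 0 := by
  decide

/-- intersecting translates -/
theorem meets {a a' x z : V} {j k p q : Fin 7} (hj : x - a ∈ cube (iv (YZ j)))
    (hk : x - a' ∈ cube (iv (YZ k))) (hp : z - a ∈ cube (iv (YZ p)))
    (hq : z - a' ∈ cube (iv (YZ q))) : (p = q ∧ j = k) ∨ (p = j ∧ q = k) := by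
  apply sidon
  intro i
  have h1 := hj i
  have h2 := hk i
  have h3 := hp i
  have h4 := hq i
  have e : ∀ n : Fin 5 → ℤ, iv n i = (n i : ℝ) := fun n => rfl
  rw [e] at h1 h2 h3 h4
  simp only [PiLp.sub_apply] at h1 h2 h3 h4
  have h5 : ((YZ p i - YZ q i - (YZ j i - YZ k i) : ℤ) : ℝ) < 2 := by
    push_cast
    linarith [h1.1, h1.2, h2.1, h2.2, h3.1, h3.2, h4.1, h4.2]
  have h6 : (-2 : ℝ) < ((YZ p i - YZ q i - (YZ j i - YZ k i) : ℤ) : ℝ) := by
    push_cast
    linarith [h1.1, h1.2, h2.1, h2.2, h3.1, h3.2, h4.1, h4.2]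
  have h7 : YZ p i - YZ q i - (YZ j i - YZ k i) < 2 := by exact_mod_cast h5
  have h8 : -2 < YZ p i - YZ q i - (YZ j i - YZ k i) := by exact_mod_cast h6
  have e1 := even_YZ p i
  have e2 := even_YZ q i
  have e3 := even_YZ j i
  have e4 := even_YZ k i
  omega

theorem G_mul (a a' b b' z : V) : G (a, b) z * starRingEnd ℂ (G (a', b') z) =
    ({z : V | z - a ∈ E ∧ z - a' ∈ E}).indicator (fun z => ex z (-(b - b'))) z := by
  classical
  unfold G
  by_cases h1 : z - a ∈ E
  · by_cases h2 : z - a' ∈ E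
    · rw [Set.indicator_of_mem h1, Set.indicator_of_mem h2,
        Set.indicator_of_mem (show z ∈ {z : V | z - a ∈ E ∧ z - a' ∈ E} from ⟨h1, h2⟩),
        one_mul, one_mul]
      simp only
      rw [ex_neg, ex_neg, show -(b - b') = -b + b' by abel, ex_add_right]
      congr 1
      unfold ex
      rw [← Complex.exp_conj]
      congr 1
      simp only [map_mul, Complex.conj_ofReal, Complex.conj_I, inner_neg_right]
      rw [show (starRingEnd ℂ) 2 = 2 from Complex.conj_ofNat 2]
      push_cast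
      ring
    · rw [Set.indicator_of_notMem h2,
        Set.indicator_of_notMem (show z ∉ {z : V | z - a ∈ E ∧ z - a' ∈ E} from fun h => h2 h.2)]
      simp
  · rw [Set.indicator_of_notMem h1,
      Set.indicator_of_notMem (show z ∉ {z : V | z - a ∈ E ∧ z - a' ∈ E} from fun h => h1 h.1)]
    simp

theorem taskPair : TaskPair := by
  intro hBox a a' b b' x hxa hxa' hb h0
  classical
  set β : V := b - b' with hβ
  have hbox : ∀ l u : Fin 5 → ℝ, (∀ i, l i < u i) → (∀ i, u i - l i ≤ 1) →
      ∫ z in Bx l u, ex z (-β) ≠ 0 := by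
    intro l u h1 h2
    have h3 := hBox l u β h1 h2 (fun i => by
      have := hb i
      rw [hβ]
      simpa using this)
    simp only [ex_neg] at h3
    exact h3
  have hInt : ∫ z in {z : V | z - a ∈ E ∧ z - a' ∈ E}, ex z (-β) = 0 := by
    have hm : MeasurableSet {z : V | z - a ∈ E ∧ z - a' ∈ E} := by
      have hE : MeasurableSet E := MeasurableSet.iUnion fun j => cube_meas _
      exact (hE.preimage (by fun_prop : Measurable fun z : V => z - a)).inter
        (hE.preimage (by fun_prop : Measurable fun z : V => z - a'))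
    rw [← integral_indicator hm, ← h0]
    exact integral_congr_ae (Filter.Eventually.of_forall fun z => (G_mul a a' b b' z).symm)
  obtain ⟨j, hj⟩ := Set.mem_iUnion.mp hxa
  obtain ⟨k, hk⟩ := Set.mem_iUnion.mp hxa'
  -- the boxes
  let l : Fin 7 → Fin 7 → Fin 5 → ℝ := fun p q i => max (a i + YZ p i) (a' i + YZ q i)
  let u : Fin 7 → Fin 7 → Fin 5 → ℝ := fun p q i => min (a i + YZ p i + 1) (a' i + YZ q i + 1)
  have hD : ∀ (p q : Fin 7) (z : V), z ∈ Bx (l p q) (u p q) ↔
      z - a ∈ cube (iv (YZ p)) ∧ z - a' ∈ cube (iv (YZ q)) := by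
    intro p q z
    have e : ∀ (n : Fin 5 → ℤ) (i : Fin 5), iv n i = (n i : ℝ) := fun n i => rfl
    constructor
    · intro h
      refine ⟨fun i => ?_, fun i => ?_⟩ <;>
      · have h1 := h i
        simp only [l, u, max_le_iff, lt_min_iff] at h1
        rw [e]
        simp only [PiLp.sub_apply]
        constructor <;> linarith [h1.1.1, h1.1.2, h1.2.1, h1.2.2]
    · rintro ⟨h1, h2⟩ i
      have h3 := h1 i
      have h4 := h2 i
      rw [e] at h3 h4
      simp only [PiLp.sub_apply] at h3 h4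
      simp only [l, u, max_le_iff, lt_min_iff]
      refine ⟨⟨?_, ?_⟩, ?_, ?_⟩ <;> linarith [h3.1, h3.2, h4.1, h4.2]
  have hle : ∀ (p q : Fin 7) (i : Fin 5), u p q i - l p q i ≤ 1 := by
    intro p q i
    have h1 : u p q i ≤ a i + YZ p i + 1 := min_le_left _ _
    have h2 : a i + YZ p i ≤ l p q i := le_max_left _ _
    linarith
  by_cases hjk : j = k
  · subst hjk
    refine ⟨⟨j, hj, hk⟩, ?_⟩
    have hlt0 : ∀ i, l j j i < u j j i := by
      intro i
      have := ((hD j j x).mpr ⟨hj, hk⟩) i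
      linarith [this.1, this.2]
    have hlt : ∀ (p : Fin 7) (i : Fin 5), l p p i < u p p i := by
      intro p i
      have h1 := hlt0 i
      simp only [l, u, lt_min_iff, max_lt_iff] at h1 ⊢
      refine ⟨⟨?_, ?_⟩, ?_, ?_⟩ <;> linarith [h1.1.1, h1.1.2, h1.2.1, h1.2.2]
    have hset : {z : V | z - a ∈ E ∧ z - a' ∈ E} = ⋃ p, Bx (l p p) (u p p) := by
      ext z
      rw [Set.mem_iUnion]
      constructor
      · rintro ⟨h1, h2⟩
        obtain ⟨p, hp⟩ := Set.mem_iUnion.mp h1
        obtain ⟨q, hq⟩ := Set.mem_iUnion.mp h2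
        rcases meets hj hk hp hq with ⟨h3, _⟩ | ⟨h3, h4⟩
        · subst h3
          exact ⟨p, (hD p p z).mpr ⟨hp, hq⟩⟩
        · rw [h3] at hp
          rw [h4] at hq
          exact ⟨j, (hD j j z).mpr ⟨hp, hq⟩⟩
      · rintro ⟨p, hp⟩
        obtain ⟨h1, h2⟩ := (hD p p z).mp hp
        exact ⟨Set.mem_iUnion.mpr ⟨p, h1⟩, Set.mem_iUnion.mpr ⟨p, h2⟩⟩
    have hdisj : Pairwise (Function.onFun Disjoint fun p : Fin 7 => Bx (l p p) (u p p)) := by
      intro p q hpq
      rw [Function.onFun, Set.disjoint_left]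
      intro z hz hz'
      have h1 := ((hD p p z).mp hz).1
      have h2 := ((hD q q z).mp hz').1
      exact Set.disjoint_left.mp (cubes_disj hpq) h1 h2
    rw [hset, integral_iUnion_fintype (fun p => Bx_meas _ _) hdisj (fun p => by
      by_contra hcon
      exact hbox _ _ (hlt p) (hle p p) (integral_undef hcon))] at hInt
    -- the box at the origin
    let l0 : Fin 5 → ℝ := fun i => max (a i) (a' i)
    let u0 : Fin 5 → ℝ := fun i => min (a i + 1) (a' i + 1)
    have htr : ∀ p : Fin 7, ∫ z in Bx (l p p) (u p p), ex z (-β) =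
        (∫ z in Bx l0 u0, ex z (-β)) * ex (iv (YZ p)) (-β) := by
      intro p
      have h1 := (measurePreserving_add_right (volume : Measure V)
        (iv (YZ p))).setIntegral_preimage_emb (emb (YZ p)) (fun z => ex z (-β))
        (Bx (l p p) (u p p))
      have h2 : (fun z : V => z + iv (YZ p)) ⁻¹' Bx (l p p) (u p p) = Bx l0 u0 := by
        ext z
        have e : ∀ (n : Fin 5 → ℤ) (i : Fin 5), iv n i = (n i : ℝ) := fun n i => rfl
        simp only [Set.mem_preimage, Bx, Set.mem_ofPred_eq, l, u, l0, u0, max_le_iff, lt_min_iff,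
          PiLp.add_apply, e]
        refine forall_congr' fun i => ?_
        constructor
        · rintro ⟨⟨h3, h4⟩, h5, h6⟩
          refine ⟨⟨?_, ?_⟩, ?_, ?_⟩ <;> linarith
        · rintro ⟨⟨h3, h4⟩, h5, h6⟩
          refine ⟨⟨?_, ?_⟩, ?_, ?_⟩ <;> linarith
      rw [h2] at h1
      rw [← h1]
      simp only [ex_add_left]
      exact integral_mul_const _ _
    rw [Finset.sum_congr rfl fun p _ => htr p, ← Finset.mul_sum] at hInt
    have hne : ∫ z in Bx l0 u0, ex z (-β) ≠ 0 := by
      apply hbox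
      · intro i
        have h1 := hlt0 i
        simp only [l, u, lt_min_iff, max_lt_iff] at h1
        simp only [l0, u0, lt_min_iff, max_lt_iff]
        refine ⟨⟨?_, ?_⟩, ?_, ?_⟩ <;> linarith [h1.1.1, h1.1.2, h1.2.1, h1.2.2]
      · intro i
        have h1 : u0 i ≤ a i + 1 := min_le_left _ _
        have h2 : a i ≤ l0 i := le_max_left _ _
        linarith
    have hs := (mul_eq_zero.mp hInt).resolve_left hne
    have hconj := congrArg (starRingEnd ℂ) hs
    rw [map_sum, map_zero] at hconj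
    rw [W_eq, ← hconj]
    refine Finset.sum_congr rfl fun p _ => ?_
    unfold ex
    rw [← Complex.exp_conj]
    congr 1
    simp only [map_mul, Complex.conj_ofReal, Complex.conj_I, inner_neg_right]
    rw [show (starRingEnd ℂ) 2 = 2 from Complex.conj_ofNat 2]
    push_cast
    ring
  · exfalso
    have hset : {z : V | z - a ∈ E ∧ z - a' ∈ E} = Bx (l j k) (u j k) := by
      ext z
      constructor
      · rintro ⟨h1, h2⟩
        obtain ⟨p, hp⟩ := Set.mem_iUnion.mp h1
        obtain ⟨q, hq⟩ := Set.mem_iUnion.mp h2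
        rcases meets hj hk hp hq with ⟨_, h3⟩ | ⟨h3, h4⟩
        · exact absurd h3 hjk
        · rw [h3] at hp
          rw [h4] at hq
          exact (hD j k z).mpr ⟨hp, hq⟩
      · intro hz
        obtain ⟨h1, h2⟩ := (hD j k z).mp hz
        exact ⟨Set.mem_iUnion.mpr ⟨j, h1⟩, Set.mem_iUnion.mpr ⟨k, h2⟩⟩
    rw [hset] at hInt
    refine hbox _ _ (fun i => ?_) (hle j k) hInt
    have := ((hD j k x).mpr ⟨hj, hk⟩) i
    linarith [this.1, this.2]

end Pool.Agent.H411R3.Gab
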