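import Pool.Agent.H75R4.Gab.Stmts

/-! H75-GABOR, TaskSpec: the union of the seven cubes is a spectral set. -/

set_option autoImplicit false

namespace Pool.Agent.H411R3.Gab

open Pool.Agent.H75R4.Gab MeasureTheory Complex Filter

/-- the exponential -/
noncomputable def ex (x β : V) : ℂ := exp (2 * (Real.pi : ℂ) * I * ((inner ℝ x β : ℝ) : ℂ))

theorem ex_neg (x β : V) :
    exp (-(2 * (Real.pi : ℂ) * I * ((inner ℝ x β : ℝ) : ℂ))) = ex x (-β) := by
  unfold ex
  rw [inner_neg_right]
  push_cast
  ring_nf

theorem ex_add_left (x y β : V) : ex (x + y) β = ex x β * ex y β := by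
  unfold ex
  rw [inner_add_left, ← Complex.exp_add]
  push_cast
  ring_nf

theorem ex_add_right (x β γ : V) : ex x (β + γ) = ex x β * ex x γ := by
  unfold ex
  rw [inner_add_right, ← Complex.exp_add]
  push_cast
  ring_nf

theorem ex_int (y n : Fin 5 → ℤ) : ex (iv y) (iv n) = 1 := by
  unfold ex
  have h : (inner ℝ (iv y) (iv n) : ℝ) = ((∑ i, y i * n i : ℤ) : ℝ) := by
    rw [PiLp.inner_apply]
    push_cast
    refine Finset.sum_congr rfl fun i _ => ?_
    simp [iv, mul_comm]
  rw [h]
  have := Complex.exp_int_mul_two_pi_mul_I (∑ i, y i * n i)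
  rw [← this]
  congr 1
  push_cast
  ring

theorem ex_norm (x β : V) : ‖ex x β‖ = 1 := by
  unfold ex
  have : 2 * (Real.pi : ℂ) * I * ((inner ℝ x β : ℝ) : ℂ) =
      ((2 * Real.pi * (inner ℝ x β : ℝ) : ℝ) : ℂ) * I := by
    push_cast
    ring
  rw [this, Complex.norm_exp_ofReal_mul_I]

theorem ex_cont (β : V) : Continuous fun x => ex x β := by
  unfold ex
  fun_prop

theorem iv_neg (n : Fin 5 → ℤ) : -iv n = iv (fun i => -n i) := by
  ext i
  simp [iv]

theorem iv_sub (n m : Fin 5 → ℤ) : iv n - iv m = iv (fun i => n i - m i) := by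
  ext i
  simp [iv]

theorem cube_meas (c : V) : MeasurableSet (cube c) := by
  have : cube c = ⋂ i, {x : V | c i ≤ x i ∧ x i < c i + 1} := by
    ext x
    simp [cube]
  rw [this]
  refine MeasurableSet.iInter fun i => ?_
  have h : Measurable fun x : V => x i := by fun_prop
  exact (measurableSet_le measurable_const h).inter (measurableSet_lt h measurable_const)

theorem cube_pre (y : Fin 5 → ℤ) : (fun x : V => x + iv y) ⁻¹' cube (iv y) = cube 0 := by
  ext x
  constructor
  · intro h i
    have := h i
    simp only [PiLp.add_apply, PiLp.zero_apply] at this ⊢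
    constructor <;> linarith [this.1, this.2]
  · intro h i
    have := h i
    simp only [PiLp.add_apply, PiLp.zero_apply] at this ⊢
    constructor <;> linarith [this.1, this.2]

theorem mp (y : Fin 5 → ℤ) : MeasurePreserving (fun x : V => x + iv y)
    (volume.restrict (cube 0)) (volume.restrict (cube (iv y))) := by
  have h := (measurePreserving_add_right (volume : Measure V) (iv y)).restrict_preimage
    (cube_meas (iv y))
  rw [cube_pre] at h
  exact h

theorem emb (y : Fin 5 → ℤ) : MeasurableEmbedding (fun x : V => x + iv y) :=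
  (MeasurableEquiv.addRight (iv y)).measurableEmbedding

theorem int_cube (y : Fin 5 → ℤ) (f : V → ℂ) :
    ∫ x in cube (iv y), f x = ∫ x in cube 0, f (x + iv y) :=
  ((mp y).integral_comp (emb y) f).symm

theorem cubes_disj : Pairwise (Function.onFun Disjoint fun j : Fin 7 => cube (iv (YZ j))) := by
  intro j k hjk
  rw [Function.onFun, Set.disjoint_left]
  intro x hx hx'
  apply hjk
  have hdec : ∀ j k : Fin 7, YZ j = YZ k → j = k := by decide
  apply hdec
  funext i
  have h1 := hx i
  have h2 := hx' i
  have e : ∀ n : Fin 5 → ℤ, iv n i = (n i : ℝ) := fun n => rfl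
  rw [e] at h1 h2
  rw [← Int.floor_eq_iff.mpr h1, ← Int.floor_eq_iff.mpr h2]

theorem int_E (f : V → ℂ) (hf : IntegrableOn f E) :
    ∫ x in E, f x = ∑ j, ∫ x in cube 0, f (x + iv (YZ j)) := by
  unfold E
  rw [integral_iUnion_fintype (fun j => cube_meas _) cubes_disj (fun j => hf.mono_set
    (Set.subset_iUnion (fun j => cube (iv (YZ j))) j))]
  exact Finset.sum_congr rfl fun j _ => int_cube _ f

theorem one_int (p : ℤ) (hp : p ≠ 0) :
    ∫ y in Set.Ico (0 : ℝ) 1, exp (2 * (Real.pi : ℂ) * I * ((y * p : ℝ) : ℂ)) = 0 := by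
  rw [integral_Ico_eq_integral_Ioc, ← intervalIntegral.integral_of_le (by norm_num)]
  have hc0 : (2 * (Real.pi : ℂ) * I * (p : ℂ)) ≠ 0 := by
    simp [Real.pi_ne_zero, hp]
  have e : ∀ y : ℝ, exp (2 * (Real.pi : ℂ) * I * ((y * p : ℝ) : ℂ)) =
      exp ((2 * (Real.pi : ℂ) * I * (p : ℂ)) * y) := by
    intro y
    push_cast
    ring_nf
  simp_rw [e]
  rw [integral_exp_mul_complex hc0]
  have h1 : exp (2 * (Real.pi : ℂ) * I * (p : ℂ) * ((1 : ℝ) : ℂ)) = 1 := by
    rw [← Complex.exp_int_mul_two_pi_mul_I p]
    congr 1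
    push_cast
    ring
  rw [h1]
  simp

theorem cube_int (p : Fin 5 → ℤ) (hp : p ≠ 0) : ∫ x in cube 0, ex x (iv p) = 0 := by
  have hmp := EuclideanSpace.volume_preserving_symm_measurableEquiv_toLp (Fin 5)
  have h1 : ∫ x in cube 0, ex x (iv p) =
      ∫ y in Set.pi Set.univ (fun _ : Fin 5 => Set.Ico (0 : ℝ) 1),
        ∏ i : Fin 5, exp (2 * (Real.pi : ℂ) * I * ((y i * p i : ℝ) : ℂ)) := by
    rw [← hmp.setIntegral_preimage_emb (MeasurableEquiv.measurableEmbedding _)]
    have hs : (MeasurableEquiv.toLp 2 (Fin 5 → ℝ)).symm ⁻¹'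
        (Set.pi Set.univ (fun _ : Fin 5 => Set.Ico (0 : ℝ) 1)) = cube 0 := by
      ext x
      simp [Set.mem_pi, cube]
    rw [hs]
    apply integral_congr_ae
    filter_upwards with x
    rw [← Complex.exp_sum]
    unfold ex
    congr 1
    rw [← Finset.mul_sum]
    congr 1
    rw [← Complex.ofReal_sum]
    congr 1
    rw [PiLp.inner_apply]
    apply Finset.sum_congr rfl
    intro i _
    simp [iv, mul_comm]
  rw [h1, volume_pi, Measure.restrict_pi_pi, integral_fintype_prod_eq_prod
    (f := fun (i : Fin 5) (y : ℝ) => exp (2 * (Real.pi : ℂ) * I * ((y * p i : ℝ) : ℂ)))]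
  obtain ⟨i, hi⟩ := Function.ne_iff.mp hp
  exact Finset.prod_eq_zero (Finset.mem_univ i) (one_int (p i) (by simpa using hi))

theorem W_eq (β : V) : W β = ∑ j, ex (iv (YZ j)) β := rfl

theorem taskSpec : TaskSpec := by
  intro hHad hFour hMeas
  obtain ⟨hEm, hE7, hc1⟩ := hMeas
  have : IsFiniteMeasure (volume.restrict E) := ⟨by
    rw [Measure.restrict_apply_univ, hE7]; exact ENNReal.ofNat_lt_top⟩
  refine ⟨Set.range fun p : Fin 7 × (Fin 5 → ℤ) => bv p.1 + iv p.2, ?_, ?_⟩
  · rintro _ ⟨⟨k, n⟩, rfl⟩ _ ⟨⟨k', n'⟩, rfl⟩ hne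
    simp only
    have e1 : bv k + iv n - (bv k' + iv n') = bv k - bv k' + iv (fun i => n i - n' i) := by
      rw [← iv_sub]; abel
    rw [e1]
    set β : V := bv k - bv k' + iv (fun i => n i - n' i) with hβ
    have hint : IntegrableOn (fun x => ex x β) E := by
      refine Integrable.mono' (integrable_const (1 : ℝ)) (ex_cont β).aestronglyMeasurable ?_
      exact Filter.Eventually.of_forall fun x => (ex_norm x β).le
    have h2 : ∫ x in E, exp (2 * (Real.pi : ℂ) * I * ((inner ℝ x β : ℝ) : ℂ)) =
        ∑ j, ∫ x in cube 0, ex (x + iv (YZ j)) β := int_E (fun x => ex x β) hint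
    rw [h2]
    have h3 : ∑ j, ∫ x in cube 0, ex (x + iv (YZ j)) β =
        (∫ x in cube 0, ex x β) * ∑ j, ex (iv (YZ j)) β := by
      rw [Finset.mul_sum]
      refine Finset.sum_congr rfl fun j _ => ?_
      simp only [ex_add_left]
      exact integral_mul_const _ _
    rw [h3]
    have h4 : ∑ j, ex (iv (YZ j)) β = W (bv k - bv k') := by
      rw [W_eq]
      refine Finset.sum_congr rfl fun j _ => ?_
      rw [hβ, ex_add_right, ex_int, mul_one]
    rw [h4]
    by_cases hk : k = k'
    · subst hk
      have hn : (fun i => n i - n' i) ≠ 0 := by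
        intro h
        apply hne
        simp only
        congr 1
        congr 1
        funext i
        have := congrFun h i
        simp only [Pi.zero_apply] at this
        omega
      have h5 : β = iv (fun i => n i - n' i) := by rw [hβ]; simp
      rw [h5, cube_int _ hn, zero_mul]
    · rw [hHad k k' hk, mul_zero]
  · intro f hf h
    have hfi : IntegrableOn f E := hf.integrable (by norm_num)
    -- the translated pieces
    have hfj : ∀ j, MemLp (fun x => f (x + iv (YZ j))) 2 (volume.restrict (cube 0)) := by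
      intro j
      have h1 : MemLp f 2 (volume.restrict (cube (iv (YZ j)))) :=
        hf.mono_measure (Measure.restrict_mono (Set.subset_iUnion (fun j => cube (iv (YZ j))) j)
          le_rfl)
      exact h1.comp_measurePreserving (mp (YZ j))
    let g : Fin 7 → V → ℂ := fun k x => ∑ j, f (x + iv (YZ j)) * ex (x + iv (YZ j)) (-bv k)
    have hg : ∀ k, MemLp (g k) 2 (volume.restrict (cube 0)) := by
      intro k
      refine memLp_finsetSum _ fun j _ => ?_
      refine (hfj j).congr_norm ?_ ?_
      · refine (hfj j).1.mul ?_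
        exact ((ex_cont (-bv k)).comp (continuous_id.add continuous_const)).aestronglyMeasurable
      · exact Filter.Eventually.of_forall fun x => by
          simp only [norm_mul, ex_norm, mul_one]
    have hfe : ∀ β : V, IntegrableOn (fun x => f x * ex x β) E := by
      intro β
      have hfi' : Integrable f (volume.restrict E) := hfi
      refine hfi'.mono (hfi'.1.mul (ex_cont β).aestronglyMeasurable) ?_
      exact Filter.Eventually.of_forall fun x => by
        rw [norm_mul, ex_norm, mul_one]
    have hzero : ∀ k, g k =ᵐ[volume.restrict (cube 0)] 0 := by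
      intro k
      refine hFour (g k) (hg k) fun n => ?_
      have h1 := h (bv k + iv n) ⟨(k, n), rfl⟩
      have h2 : ∀ x, exp (-(2 * (Real.pi : ℂ) * I * ((inner ℝ x (bv k + iv n) : ℝ) : ℂ))) =
          ex x (-(bv k + iv n)) := fun x => ex_neg _ _
      simp only [h2] at h1
      rw [int_E _ (hfe _)] at h1
      rw [← h1, ← integral_finsetSum]
      · refine integral_congr_ae (Filter.Eventually.of_forall fun x => ?_)
        simp only [g]
        rw [ex_neg, Finset.sum_mul]
        refine Finset.sum_congr rfl fun j _ => ?_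
        have e1 : -(bv k + iv n) = -bv k + iv (fun i => -n i) := by
          rw [← iv_neg]; abel
        rw [e1, ex_add_right, ex_add_left x (iv (YZ j)) (iv fun i => -n i), ex_int, iv_neg]
        ring
      · intro j _
        have h3 : IntegrableOn (fun x => f x * ex x (-(bv k + iv n))) (cube (iv (YZ j))) :=
          (hfe _).mono_set (Set.subset_iUnion (fun j => cube (iv (YZ j))) j)
        exact (mp (YZ j)).integrable_comp_of_integrable h3
    have hall : ∀ᵐ x ∂(volume.restrict (cube 0)), ∀ j, f (x + iv (YZ j)) = 0 := by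
      have h1 : ∀ᵐ x ∂(volume.restrict (cube 0)), ∀ k, g k x = 0 := ae_all_iff.mpr hzero
      filter_upwards [h1] with x hx
      let A : Matrix (Fin 7) (Fin 7) ℂ := fun k j => ex (x + iv (YZ j)) (-bv k)
      let B : Matrix (Fin 7) (Fin 7) ℂ := fun j k => (1 / 7) * ex (x + iv (YZ j)) (bv k)
      have hAB : A * B = 1 := by
        ext k l
        rw [Matrix.mul_apply]
        have h2 : ∀ j, A k j * B j l = (1 / 7) * ex x (bv l - bv k) *
            ex (iv (YZ j)) (bv l - bv k) := by
          intro j
          simp only [A, B]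
          have e1 : bv l - bv k = -bv k + bv l := by abel
          rw [mul_assoc (1 / 7 : ℂ), ← ex_add_left, e1, ex_add_right]
          ring
        simp only [h2]
        rw [← Finset.mul_sum, ← W_eq]
        by_cases hkl : k = l
        · subst hkl
          rw [Matrix.one_apply_eq, sub_self]
          have e2 : W 0 = 7 := by simp [W]
          have e3 : ex x 0 = 1 := by simp [ex]
          rw [e2, e3]
          norm_num
        · rw [Matrix.one_apply_ne hkl, hHad l k (Ne.symm hkl), mul_zero]
      have hBA : B * A = 1 := mul_eq_one_comm.mp hAB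
      have hA0 : A.mulVec (fun j => f (x + iv (YZ j))) = 0 := by
        funext k
        have := hx k
        simp only [g] at this
        rw [Matrix.mulVec, dotProduct, Pi.zero_apply, ← this]
        exact Finset.sum_congr rfl fun j _ => mul_comm _ _
      have hv : (fun j => f (x + iv (YZ j))) = 0 := by
        have h3 : (B * A).mulVec (fun j => f (x + iv (YZ j))) = 0 := by
          rw [← Matrix.mulVec_mulVec, hA0, Matrix.mulVec_zero]
        rwa [hBA, Matrix.one_mulVec] at h3
      intro j
      exact congrFun hv j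
    change ∀ᵐ x ∂(volume.restrict E), f x = 0
    unfold E
    rw [ae_restrict_iUnion_iff]
    intro j
    rw [← (mp (YZ j)).map_eq, (emb (YZ j)).ae_map_iff]
    filter_upwards [hall] with x hx
    exact hx j

end Pool.Agent.H411R3.Gab
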