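import Pool.Agent.H75R4.Gab.Stmts

/-! H75-GABOR, TaskTile: from saturated windows to a tiling of the integer lattice. -/

set_option autoImplicit false

namespace Pool.Agent.H411R3.Gab

open Pool.Agent.H75R4.Gab MeasureTheory Complex Filter

theorem iv_apply (n : Fin 5 → ℤ) (i : Fin 5) : iv n i = (n i : ℝ) := rfl

theorem cube_inj {a b : Fin 5 → ℤ} {x : V} (ha : x ∈ cube (iv a)) (hb : x ∈ cube (iv b)) :
    a = b := by
  funext i
  have h1 := ha i
  have h2 := hb i
  rw [iv_apply] at h1 h2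
  have h3 : ⌊x i⌋ = a i := Int.floor_eq_iff.mpr h1
  have h4 : ⌊x i⌋ = b i := Int.floor_eq_iff.mpr h2
  rw [← h3, ← h4]

theorem YZ_inj : ∀ j k : Fin 7, YZ j = YZ k → j = k := by
  decide

theorem shift (z : V) (m y : Fin 5 → ℤ) (c : V) :
    z + iv m - c ∈ cube (iv y) ↔ z + iv (fun i => m i - y i) - c ∈ cube 0 := by
  have h : ∀ i, (z + iv m - c) i = (z + iv (fun i => m i - y i) - c) i + (y i : ℝ) := by
    intro i
    simp only [PiLp.sub_apply, PiLp.add_apply, iv_apply]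
    push_cast
    ring
  constructor
  · intro hx i
    have h1 := hx i
    rw [h i, iv_apply] at h1
    rw [PiLp.zero_apply]
    constructor <;> linarith [h1.1, h1.2]
  · intro hx i
    have h1 := hx i
    rw [PiLp.zero_apply] at h1
    rw [h i, iv_apply]
    constructor <;> linarith [h1.1, h1.2]

theorem taskTile : TaskTile := by
  classical
  intro hP S hS hSat
  -- positions in a box
  let B : ℕ → Finset V := fun R =>
    (Fintype.piFinset fun _ : Fin 5 => Finset.Icc (-(R : ℤ)) R).image iv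
  choose n z hz hn using fun R => hSat (B R)
  let TR : ℕ → (Fin 5 → ℤ) → Prop := fun R k =>
    ∃ s ∈ S, s.2 ∈ cube (iv (n R)) ∧ z R + iv k - s.1 ∈ cube 0
  -- two elements in the same window
  have hsame : ∀ (R : ℕ) (m : Fin 5 → ℤ) (s s' : V × V) (j j' : Fin 7), s ∈ S → s' ∈ S →
      s.2 ∈ cube (iv (n R)) → s'.2 ∈ cube (iv (n R)) →
      z R + iv m - s.1 ∈ cube (iv (YZ j)) → z R + iv m - s'.1 ∈ cube (iv (YZ j')) → j = j' := by
    intro R m s s' j j' hs hs' hb hb' hj hj'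
    by_cases hss : s = s'
    · subst hss
      exact YZ_inj _ _ (cube_inj hj hj')
    · have hE : z R + iv m - s.1 ∈ E := Set.mem_iUnion.mpr ⟨j, hj⟩
      have hE' : z R + iv m - s'.1 ∈ E := Set.mem_iUnion.mpr ⟨j', hj'⟩
      have hd : ∀ i, |s.2 i - s'.2 i| < 1 := by
        intro i
        have h1 := hb i
        have h2 := hb' i
        rw [abs_lt]
        constructor <;> linarith [h1.1, h1.2, h2.1, h2.2]
      obtain ⟨⟨k, hk, hk'⟩, _⟩ := hP s.1 s'.1 s.2 s'.2 (z R + iv m) hE hE' hd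
        (hS s hs s' hs' hss)
      rw [YZ_inj _ _ (cube_inj hj hk), YZ_inj _ _ (cube_inj hj' hk')]
  have huniq : ∀ (R : ℕ) (m : Fin 5 → ℤ), (∀ i, |m i| ≤ (R : ℤ)) →
      ∃! j : Fin 7, TR R (fun i => m i - YZ j i) := by
    intro R m hm
    have hmem : iv m ∈ B R := by
      refine Finset.mem_image.mpr ⟨m, ?_, rfl⟩
      rw [Fintype.mem_piFinset]
      intro i
      rw [Finset.mem_Icc]
      exact abs_le.mp (hm i)
    have h7 := hn R (iv m) hmem
    have hne : (Mset S (z R + iv m) (n R)).Nonempty := by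
      rw [← Set.encard_ne_zero, h7]
      norm_num
    obtain ⟨s, hs, hsE, hsn⟩ := hne
    obtain ⟨j, hj⟩ := Set.mem_iUnion.mp hsE
    refine ⟨j, ⟨s, hs, hsn, (shift _ _ _ _).mp hj⟩, ?_⟩
    rintro j' ⟨s', hs', hsn', h'⟩
    exact (hsame R m s s' j j' hs hs' hsn hsn' hj ((shift _ _ _ _).mpr h')).symm
  let 𝒰 : Ultrafilter ℕ := hyperfilter ℕ
  have hU : (𝒰 : Filter ℕ) ≤ atTop := Nat.hyperfilter_le_atTop
  refine ⟨fun k => ∀ᶠ R in (𝒰 : Filter ℕ), TR R k, fun x => ?_⟩
  have hev : ∀ᶠ R in (𝒰 : Filter ℕ), ∃! j : Fin 7, TR R (fun i => x i - YZ j i) := by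
    apply hU
    refine Filter.mem_of_superset (Filter.eventually_ge_atTop (∑ i, (x i).natAbs)) ?_
    intro R hR
    refine huniq R x fun i => ?_
    have h1 : (x i).natAbs ≤ ∑ i, (x i).natAbs :=
      Finset.single_le_sum (f := fun i => (x i).natAbs) (fun _ _ => Nat.zero_le _)
        (Finset.mem_univ i)
    have h2 : ∑ i, (x i).natAbs ≤ R := hR
    have h3 : ((x i).natAbs : ℤ) = |x i| := Int.natCast_natAbs (x i)
    rw [← h3]
    exact_mod_cast h1.trans h2
  have hex : ∃ j : Fin 7, ∀ᶠ R in (𝒰 : Filter ℕ), TR R (fun i => x i - YZ j i) := by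
    by_contra hcon
    push Not at hcon
    have h1 : ∀ j : Fin 7, ∀ᶠ R in (𝒰 : Filter ℕ), ¬ TR R (fun i => x i - YZ j i) := by
      intro j
      exact Ultrafilter.eventually_not.mpr (by simpa using hcon j)
    have h2 := (Filter.eventually_all.mpr h1).and hev
    obtain ⟨R, h3, h4⟩ := h2.exists
    obtain ⟨j, hj, _⟩ := h4
    exact h3 j hj
  obtain ⟨j, hj⟩ := hex
  refine ⟨j, hj, fun j' hj' => ?_⟩
  obtain ⟨R, ⟨h1, h2⟩, h3⟩ := ((hj.and hj').and hev).exists
  exact h3.unique h2 h1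

end Pool.Agent.H411R3.Gab
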